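import Pool.Agent.U736.LH.E

/-!
# Wintner's asymptotic for `L_{1/2}(x)` is equivalent to `L(x) = o(√x log x)`

Let `L(x) = ∑_{n ≤ x} λ(n)`, `L_{1/2}(x) = ∑_{n ≤ x} λ(n)/√n` and
`Δ(x) = L_{1/2}(x) - log x / (2ζ(1/2))`.  For every positive nondecreasing `η` on `[1, ∞)` with
`η(u)/u^k` nonincreasing for some `k`:

* `L(x) = O(√x η(log x))` if and only if `Δ(x) = O(η(log x))`;
* if `η → ∞`: `L(x) = o(√x η(log x))` if and only if `Δ(x) = o(η(log x))`.

In particular (`η(u) = u`) the asymptotic `L_{1/2}(x) ∼ log x / (2ζ(1/2))` holds if and only if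
`L(x) = o(√x log x)`.

The difficult direction uses a local Tauberian argument: `ζ(2s)/ζ(s)` is regular near `1/2` apart
from the pole at `1/2`, and the maximum principle on a small circle about `1/2` controls the mean of
`L(t)/√t` by its size, without loss.
-/

set_option autoImplicit false

open Filter Asymptotics Pool.Agent.U736.LH

namespace Pool.Agent.Results.MP_0c6bc5_nt.WintnerEquivalence

/-- `L(x) = ∑_{n ≤ x} λ(n)`. -/
noncomputable def L (x : ℝ) : ℝ :=
  ∑ n ∈ Finset.Icc 1 ⌊x⌋₊, ((ArithmeticFunction.liouville n : ℤ) : ℝ)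

/-- `L_{1/2}(x) = ∑_{n ≤ x} λ(n)/√n`. -/
noncomputable def Lhalf (x : ℝ) : ℝ :=
  ∑ n ∈ Finset.Icc 1 ⌊x⌋₊, ((ArithmeticFunction.liouville n : ℤ) : ℝ) / Real.sqrt n

/-- `Δ(x) = L_{1/2}(x) - log x / (2ζ(1/2))`. -/
noncomputable def Delta (x : ℝ) : ℂ :=
  (Lhalf x : ℂ) - (Real.log x : ℂ) / (2 * riemannZeta (1 / 2))

/-- The comparison functions: `η` is positive and nondecreasing on `[1, ∞)` and `η(u)/u^k` is
nonincreasing there for some natural number `k`. -/
structure Comparison (η : ℝ → ℝ) : Prop where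
  pos : ∀ u, 1 ≤ u → 0 < η u
  mono : ∀ u v, 1 ≤ u → u ≤ v → η u ≤ η v
  anti : ∃ k : ℕ, ∀ u v, 1 ≤ u → u ≤ v → η v / v ^ k ≤ η u / u ^ k

lemma Delta_eq (x : ℝ) : Delta x = De x := by
  unfold Delta De cc
  have h : (Lhalf x : ℂ) = (Lh x : ℂ) := rfl
  have h0 : riemannZeta (1 / 2) ≠ 0 := Pool.Agent.TH223.AP.zeta_half_ne
  rw [h]
  field_simp

theorem result :
    (∀ η : ℝ → ℝ, Comparison η →
      (L =O[atTop] (fun x => Real.sqrt x * η (Real.log x)) ↔
        Delta =O[atTop] (fun x => η (Real.log x)))) ∧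
    (∀ η : ℝ → ℝ, Comparison η → Tendsto η atTop atTop →
      (L =o[atTop] (fun x => Real.sqrt x * η (Real.log x)) ↔
        Delta =o[atTop] (fun x => η (Real.log x)))) ∧
    (Tendsto (fun x : ℝ => 2 * riemannZeta (1 / 2) * (Lhalf x : ℂ) / (Real.log x : ℂ)) atTop
        (nhds 1) ↔
      L =o[atTop] (fun x => Real.sqrt x * Real.log x)) := by
  have hD : Delta = De := funext Delta_eq
  have hL : L = LL := rfl
  have h0 : riemannZeta (1 / 2) ≠ 0 := Pool.Agent.TH223.AP.zeta_half_ne
  have part2 : ∀ η : ℝ → ℝ, Comparison η → Tendsto η atTop atTop →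
      (L =o[atTop] (fun x => Real.sqrt x * η (Real.log x)) ↔
        Delta =o[atTop] (fun x => η (Real.log x))) := fun η hη hinf => by
    obtain ⟨k, hk⟩ := hη.anti
    rw [hD, hL]
    exact littleO_iff (k := k) η ⟨hη.pos, hη.mono, hk⟩ hinf
  refine ⟨fun η hη => ?_, part2, ?_⟩
  · obtain ⟨k, hk⟩ := hη.anti
    rw [hD, hL]
    exact bigO_iff (k := k) η ⟨hη.pos, hη.mono, hk⟩
  · have h1 := part2 (fun u => u) ⟨fun u hu => by linarith, fun u v _ h => h, 1, fun u v hu h => by
      rw [pow_one, pow_one, div_self (by linarith), div_self (by linarith)]⟩ tendsto_id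
    rw [h1]
    have hlog : ∀ᶠ x : ℝ in atTop, ((Real.log x : ℝ) : ℂ) ≠ 0 := by
      filter_upwards [Real.tendsto_log_atTop.eventually_ge_atTop 1] with x hx
      have : Real.log x ≠ 0 := by linarith
      exact_mod_cast this
    have e1 : (fun x : ℝ => 2 * riemannZeta (1 / 2) * (Lhalf x : ℂ) / (Real.log x : ℂ)) =ᶠ[atTop]
        fun x => 1 + 2 * riemannZeta (1 / 2) * (Delta x / (Real.log x : ℂ)) := by
      filter_upwards [hlog] with x hx
      unfold Delta
      field_simp
      ring
    have e2 : (Delta =o[atTop] fun x : ℝ => Real.log x) ↔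
        Tendsto (fun x : ℝ => Delta x / (Real.log x : ℂ)) atTop (nhds 0) := by
      have e3 : (Delta =o[atTop] fun x : ℝ => Real.log x) ↔
          (Delta =o[atTop] fun x : ℝ => ((Real.log x : ℝ) : ℂ)) := by
        constructor
        · intro h
          exact h.trans_isBigO (IsBigO.of_bound 1 (Eventually.of_forall fun x => by
            rw [Complex.norm_real, one_mul]))
        · intro h
          exact h.trans_isBigO (IsBigO.of_bound 1 (Eventually.of_forall fun x => by
            rw [Complex.norm_real, one_mul]))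
      rw [e3]
      exact isLittleO_iff_tendsto' (by
        filter_upwards [hlog] with x hx h
        exact absurd h hx)
    rw [tendsto_congr' e1]
    show _ ↔ (Delta =o[atTop] fun x : ℝ => Real.log x)
    rw [e2]
    constructor
    · intro h
      have h2 := (h.sub_const 1).const_mul (1 / (2 * riemannZeta (1 / 2)))
      have e4 : (fun x : ℝ => 1 / (2 * riemannZeta (1 / 2)) *
          (1 + 2 * riemannZeta (1 / 2) * (Delta x / (Real.log x : ℂ)) - 1)) =
          fun x : ℝ => Delta x / (Real.log x : ℂ) := by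
        funext x
        have h5 : 1 / (2 * riemannZeta (1 / 2)) * (2 * riemannZeta (1 / 2)) = 1 := by
          field_simp
        linear_combination (Delta x / (Real.log x : ℂ)) * h5
      rw [e4] at h2
      simpa using h2
    · intro h
      have h2 := (h.const_mul (2 * riemannZeta (1 / 2))).const_add 1
      simpa using h2

end Pool.Agent.Results.MP_0c6bc5_nt.WintnerEquivalence
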